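import Pool.Agent.H82.EUC.Stmts3

/-! Row CAT of the board `euc`. -/

namespace Pool.EUC

theorem cat_thm (h1 : WLG_S) (h2 : SEQ_S) : CAT_S := by
  intro A _ V G dM dW hM hW F hF mb hmb u v p huv
  have key : ∀ (a b : V) (p : G.Walk a b),
      Relation.ReflTransGen (fun z z' => ∃ x y, x ∈ p.support ∧ y ∈ p.support ∧ G.Adj x y ∧
        StG dM dW F x y z z') (F.o (mb a), mb a) (F.o (mb b), mb b) := by
    intro a b p
    induction p with
    | nil => exact Relation.ReflTransGen.refl
    | @cons a c b hac q ih =>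
      have e1 := (h1 A V G dM dW hM hW F hF mb hmb a c hac).2.2
      have e2 : Relation.ReflTransGen (fun z z' => ∃ x y, x ∈ (SimpleGraph.Walk.cons hac q).support
          ∧ y ∈ (SimpleGraph.Walk.cons hac q).support ∧ G.Adj x y ∧
          StG dM dW F x y z z') (F.o (mb a), mb a) (F.o (mb c), mb c) := by
        refine Relation.ReflTransGen.mono ?_ _ _ e1
        intro z z' hz
        refine ⟨a, c, ?_, ?_, hac, hz⟩
        · simp
        · simp
      have e3 : Relation.ReflTransGen (fun z z' => ∃ x y, x ∈ (SimpleGraph.Walk.cons hac q).support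
          ∧ y ∈ (SimpleGraph.Walk.cons hac q).support ∧ G.Adj x y ∧
          StG dM dW F x y z z') (F.o (mb c), mb c) (F.o (mb b), mb b) := by
        refine Relation.ReflTransGen.mono ?_ _ _ ih
        rintro z z' ⟨x, y, hx, hy, hxy, hz⟩
        refine ⟨x, y, ?_, ?_, hxy, hz⟩
        · rw [SimpleGraph.Walk.support_cons]; exact List.mem_cons_of_mem _ hx
        · rw [SimpleGraph.Walk.support_cons]; exact List.mem_cons_of_mem _ hy
      exact e2.trans e3
  obtain ⟨N, z, hz0, hzN, hz⟩ := h2 (A × A) _ _ _ (key u v p)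
  refine ⟨N, z, hz0, hzN, hz, ?_⟩
  intro s hs
  rcases Nat.lt_or_ge s N with h | h
  · obtain ⟨x, y, hx, hy, hxy, hst⟩ := hz s h
    exact ⟨x, y, hx, hy, hxy, hst.1⟩
  · have hsN : s = N := le_antisymm hs h
    rcases Nat.eq_zero_or_pos N with hN | hN
    · cases p with
      | nil => exact absurd rfl huv
      | @cons _ c _ hac q =>
        refine ⟨u, c, ?_, ?_, hac, ?_⟩
        · simp
        · simp
        · rw [hsN, hN, hz0]
          exact (h1 A V G dM dW hM hW F hF mb hmb u c hac).1
    · obtain ⟨x, y, hx, hy, hxy, hst⟩ := hz (N - 1) (by omega)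
      refine ⟨x, y, hx, hy, hxy, ?_⟩
      have := hst.2.1
      rw [Nat.sub_add_cancel hN] at this
      rw [hsN]; exact this

end Pool.EUC
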