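import Pool.Agent.H82.EUC.Stmts

/-! Row WLK of the board `euc`. -/

namespace Pool.EUC

private lemma wlk_wle_trans {A : Type} {dW : A → A → ℝ} {σ τ ρ : Equiv.Perm A}
    (h1 : WLe dW σ τ) (h2 : WLe dW τ ρ) : WLe dW σ ρ :=
  fun w => le_trans (h2 w) (h1 w)

private lemma wlk_seg {A : Type} (dM dW : A → A → ℝ) (F : Fam A) (u v : Fin 5)
    (hb : F.b u v = F.b v u) (x y : Fin 5) (hxy : (x = u ∧ y = v) ∨ (x = v ∧ y = u))
    (s : A × A) (m m' : A)
    (hr : Relation.ReflTransGen (RR dM dW (F.a x) (F.b x y)) m m')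
    (h : ∃ w, PtE F u v (w, m) ∧ HSE dM F u v m w ∧
      Relation.ReflTransGen (StE dM dW F u v) s (w, m)) :
    ∃ w, PtE F u v (w, m') ∧ HSE dM F u v m' w ∧
      Relation.ReflTransGen (StE dM dW F u v) s (w, m') := by
  induction hr with
  | refl => exact h
  | @tail p q _ hpq ih =>
    obtain ⟨w, hpt, hh, hc⟩ := ih
    obtain ⟨w', hA, hB⟩ := hpq
    obtain ⟨a1, a2, a3, a4⟩ := hA
    obtain ⟨b1, b2, b3, b4⟩ := hB
    have key : ∀ n : A, F.a x n ≠ F.b x y n → (F.a x).symm w' ≠ (F.b x y).symm w' →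
        dM n w' ≤ dM n (F.b x y n) → dW w' n ≤ dW w' ((F.a x).symm w') →
        PtE F u v (w', n) ∧ HSE dM F u v n w' ∧ VSE dW F u v w' n := by
      intro n c1 c2 c3 c4
      rcases hxy with ⟨rfl, rfl⟩ | ⟨rfl, rfl⟩
      · exact ⟨⟨Or.inl c2, Or.inl c1⟩, ⟨Or.inl c1, c3⟩, Or.inl ⟨c2, c4⟩⟩
      · refine ⟨⟨Or.inr c2, Or.inr c1⟩, ⟨Or.inr c1, ?_⟩, Or.inr ⟨c2, c4⟩⟩
        rw [hb]; exact c3
    obtain ⟨p1, p2, p3⟩ := key p a1 a2 a3 a4
    obtain ⟨q1, q2, q3⟩ := key q b1 b2 b3 b4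
    refine ⟨w', q1, q2, ?_⟩
    have s1 : StE dM dW F u v (w, p) (w', p) := ⟨hpt, p1, hh, p2, Or.inl rfl⟩
    have s2 : StE dM dW F u v (w', p) (w', q) := ⟨p1, q1, q2, q2, Or.inr ⟨p3, q3⟩⟩
    exact (hc.tail s1).tail s2

theorem wlk_thm (h1 : OPP_S) (h2 : CON_S) : WLK_S := by
  intro A _ dM dW hM hW F hF mb hmb u v huv
  have hb : F.b u v = F.b v u := hF.bsymm u v
  have hd : F.d u v = F.d v u := hF.dsymm u v
  have hvu : v ≠ u := huv.symm
  obtain ⟨e, he⟩ : ∃ e, F.d u v e ≠ F.b u v e := by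
    by_contra hcon
    push Not at hcon
    exact hF.dbne u v huv (Equiv.ext hcon)
  -- facts for an ordered pair
  have mov : ∀ x y : Fin 5, x ≠ y → ∀ n : A, F.d x y n ≠ F.b x y n → F.a x n ≠ F.b x y n := by
    intro x y hxy n hn
    have e1 := h1 A dM dW hM hW (F.a x) (F.d x y) (hF.sa x) (hF.sd x y hxy) (hF.ad x y hxy) n
    have e2 := h1 A dM dW hM hW (F.d x y) (F.b x y) (hF.sd x y hxy) (hF.sb x y hxy)
      (hF.db x y hxy) n
    have e3 : dM n (F.d x y n) ≠ dM n (F.b x y n) := fun h => hn (hM n h)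
    have e4 : dM n (F.a x n) < dM n (F.b x y n) := lt_of_le_of_lt e1 (lt_of_le_of_ne e2 e3)
    intro h
    rw [h] at e4
    exact lt_irrefl _ e4
  have con : ∀ x y : Fin 5, x ≠ y → ∀ m m' : A, F.a x m ≠ F.b x y m → F.a x m' ≠ F.b x y m' →
      Relation.ReflTransGen (RR dM dW (F.a x) (F.b x y)) m m' := by
    intro x y hxy m m' hm hm'
    refine h2 A dM dW hM hW (F.a x) (F.b x y) (hF.sa x) (hF.sb x y hxy)
      (wlk_wle_trans (hF.ad x y hxy) (hF.db x y hxy)) ?_ m m' hm hm'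
    intro ν ν' s1 s2 w1 w2 w3 w4 n1 n2 n3 n4
    have r1 := hF.itv x y hxy ν s1 w1 w2
    have r2 := hF.itv x y hxy ν' s2 w3 w4
    have t1 : ν = F.d x y := by
      rcases r1 with r | r | r
      · exact absurd r n1
      · exact r
      · exact absurd r n2
    have t2 : ν' = F.d x y := by
      rcases r2 with r | r | r
      · exact absurd r n3
      · exact r
      · exact absurd r n4
    rw [t1, t2]
  -- the base men
  have base : ∀ x y : Fin 5, x ≠ y → F.a x (mb y) ≠ F.b x y (mb y) ∧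
      (F.a x).symm (F.o (mb y)) ≠ (F.b x y).symm (F.o (mb y)) ∧
      dM (mb y) (F.o (mb y)) ≤ dM (mb y) (F.b x y (mb y)) := by
    intro x y hxy
    obtain ⟨g1, g2⟩ := hmb x y hxy
    have g3 : F.o (mb y) ≠ F.b x y (mb y) := by
      intro h
      rw [← h] at g2
      exact lt_irrefl _ g2
    refine ⟨by rw [g1]; exact g3, ?_, g2.le⟩
    intro h
    have g4 : (F.a x).symm (F.o (mb y)) = mb y := by
      rw [← g1, Equiv.symm_apply_apply]
    rw [g4] at h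
    apply g3
    have := congrArg (F.b x y) h
    rw [Equiv.apply_symm_apply] at this
    exact this.symm
  obtain ⟨bu1, bu2, bu3⟩ := base v u hvu
  obtain ⟨bv1, bv2, bv3⟩ := base u v huv
  have P1 : PtE F u v (F.o (mb u), mb u) := ⟨Or.inr bu2, Or.inr bu1⟩
  have P2 : PtE F u v (F.o (mb v), mb v) := ⟨Or.inl bv2, Or.inl bv1⟩
  have H1 : HSE dM F u v (mb u) (F.o (mb u)) := by
    refine ⟨Or.inr bu1, ?_⟩
    rw [hb]; exact bu3
  have H2 : HSE dM F u v (mb v) (F.o (mb v)) := ⟨Or.inl bv1, bv3⟩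
  refine ⟨P1, P2, ?_⟩
  have me1 : F.a u e ≠ F.b u v e := mov u v huv e he
  have me2 : F.a v e ≠ F.b v u e := mov v u hvu e (by rw [← hb, ← hd]; exact he)
  have c1 := con v u hvu (mb u) e bu1 me2
  have c2 := con u v huv e (mb v) me1 bv1
  have q1 := wlk_seg dM dW F u v hb v u (Or.inr ⟨rfl, rfl⟩) (F.o (mb u), mb u) (mb u) e c1
    ⟨F.o (mb u), P1, H1, Relation.ReflTransGen.refl⟩
  have q2 := wlk_seg dM dW F u v hb u v (Or.inl ⟨rfl, rfl⟩) (F.o (mb u), mb u) e (mb v) c2 q1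
  obtain ⟨w, hw1, hw2, hw3⟩ := q2
  exact hw3.tail ⟨hw1, P2, hw2, H2, Or.inl rfl⟩

end Pool.EUC
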